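import Pool.Agent.SAR.NB
import Pool.Agent.SAR.NC
import Pool.Agent.SAR.NM
import Pool.Agent.SAR.NI
import Pool.Agent.SAR.PR
import Pool.Agent.SAR.KE
import Pool.Agent.SAR.KN
import Pool.Agent.SAR.LI
import Pool.Agent.SAR.GA
import Pool.Agent.SAR.GD
import Pool.Agent.SAR.GP
import Pool.Agent.SAR.GB
import Pool.Agent.SAR.GF
import Pool.Agent.SAR.GU
import Pool.Agent.SAR.HV
import Pool.Agent.SAR.AV
import Pool.Agent.SAR.CA
import Pool.Agent.SAR.XS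
import Pool.Agent.SAR.XZ
import Pool.Agent.SAR.XV
import Pool.Agent.SAR.XE
import Pool.Agent.SAR.LOA
import Pool.Agent.SAR.LOB
import Pool.Agent.SAR.LYI
import Pool.Agent.SAR.LYO
import Pool.Agent.SAR.LYF
import Pool.Agent.SAR.LPA
import Pool.Agent.SAR.LPB
import Pool.Agent.SAR.LSA
import Pool.Agent.SAR.LSB
import Pool.Agent.SAR.LSC
import Pool.Agent.SAR.LKA
import Pool.Agent.SAR.LKP
import Pool.Agent.SAR.LKB
import Pool.Agent.SAR.LKC
import Pool.Agent.SAR.LKD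
import Pool.Agent.SAR.LKS
import Pool.Agent.SAR.LKH
import Pool.Agent.SAR.LKT
import Pool.Agent.SAR.LUU
import Pool.Agent.SAR.LLA
import Pool.Agent.SAR.LLL
import Pool.Agent.SAR.LMA
import Pool.Agent.SAR.LMV
import Pool.Agent.SAR.LMR
import Pool.Agent.SAR.LML
import Pool.Agent.SAR.LAC
import Pool.Agent.SAR.LAR
import Pool.Agent.SAR.LMB

/-!
# MP_c21969_lc: Lasserre (sum of squares) tests for the restricted isometry property

For every sparsity `m` and every level `ℓ` there is a test for matrices (`LasCert m ℓ`, defined in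
`Pool/Agent/SAR/DefsL.lean`): the level-`ℓ` Lasserre relaxation, with moments `s_D x x*`
(`|D| ≤ 2 ℓ`), of the maximisation and of the minimisation of `‖Φ x‖²` over the unit vectors `x` with
support indicator `s`, `∑ s_i ≤ m`.  The tests are sound, at least as strong as the semidefinite
Sherali-Adams tests `Cert m ℓ` of `Pool/Agent/SAR/Defs.lean`, exact at level `d`, and level `2`
accepts all matrices of coherence at most `3 / (5 (m - 1))`.  Main result: no matrix whatsoever with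
`n` rows is accepted by the level `ℓ` test if `(2 ^ 11 ℓ n) ^ (4 ℓ) ≤ m ^ (4 ℓ + 1)` (and
`d ≥ 16 n m`).  With `n = m (log d) ^ C` rows the condition is
`(2 ^ 11 ℓ (log d) ^ C) ^ (4 ℓ) ≤ m`: it holds for every fixed level and all `m` larger than a power
of `log d`, and up to levels of order `log m / log log d`.
-/

set_option autoImplicit false

namespace Pool.Agent.Results.MP_c21969_lc.LasserreBarrier

open Matrix Finset Pool.SAR
open scoped ComplexOrder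

theorem kn : Stmt_KN := t_KN t_NB (t_NC t_NB) (t_NM t_NB) t_PR

theorem ke : Stmt_KE := t_KE t_PR

theorem lob : Stmt_LOB := t_LOB t_NB t_LOA

theorem lyo : Stmt_LYO := t_LYO t_PR

theorem lyf : Stmt_LYF := t_LYF t_PR t_LYI

theorem lpa : Stmt_LPA := t_LPA t_PR t_LOA

theorem lpb : Stmt_LPB := t_LPB (t_NC t_NB) t_PR ke kn t_LOA lob

theorem lsc : Stmt_LSC := t_LSC lyo lyf lpa lpb (t_LSB t_LSA)

theorem lkb : Stmt_LKB := t_LKB t_PR (t_LKP t_PR)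

theorem lkc : Stmt_LKC := t_LKC t_LYI lyo

theorem lkd : Stmt_LKD :=
  t_LKD t_NB (t_NC t_NB) (t_NM t_NB) (t_NI t_NB (t_NC t_NB) (t_NM t_NB)) t_PR ke kn

theorem lkt : Stmt_LKT := t_LKT lyo lsc lkb lkc lkd t_LKS (t_LKH t_LSA)

theorem lll : Stmt_LLL := t_LLL t_PR t_LI lsc lkt (t_LLA t_LUU t_LKA)

theorem lar : Stmt_LAR := t_LAR t_GD t_LAC t_GA t_GP t_GB t_GU lll (t_AV t_GF)

theorem lmb : Stmt_LMB := t_LMB (t_LMR t_LMV) t_HV lar t_LMA

/-- The test `LasCert m ℓ` is at least as strong as `Cert m ℓ`. -/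
theorem cert {m ℓ n d : ℕ} {Φ : Matrix (Fin n) (Fin d) ℂ} (h : Cert m ℓ Φ) : LasCert m ℓ Φ := by
  obtain ⟨c, hc, hY⟩ := h
  refine ⟨c, hc, fun Z hZ => ?_⟩
  obtain ⟨h1, h2⟩ := t_LML t_LUU ℂ (Fin d) m ℓ Z hZ
  rw [← h2]
  exact hY _ h1

/-- For every sparsity `m` the Lasserre tests `LasCert m ℓ` (`ℓ = 0, 1, 2, ...`) are sound, at least
as strong as the semidefinite Sherali-Adams tests `Cert m ℓ`, exact at level `d`, and level `2`
accepts small coherence; no `n × d` matrix is accepted by level `ℓ` if `d ≥ 16 n m` and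
`(2 ^ 11 ℓ n) ^ (4 ℓ) ≤ m ^ (4 ℓ + 1)`. -/
theorem result :
    (∀ (m ℓ n d : ℕ) (Φ : Matrix (Fin n) (Fin d) ℂ), LasCert m ℓ Φ → RIP m Φ) ∧
    (∀ (m ℓ n d : ℕ) (Φ : Matrix (Fin n) (Fin d) ℂ), Cert m ℓ Φ → LasCert m ℓ Φ) ∧
    (∀ (m n d : ℕ) (Φ : Matrix (Fin n) (Fin d) ℂ), m ≤ d → RIP m Φ → LasCert m d Φ) ∧
    (∀ (m n d : ℕ) (μ : ℝ), 1 ≤ m → 0 ≤ μ → 5 * (((m : ℝ) - 1) * μ) ≤ 3 →
      ∀ Φ : Matrix (Fin n) (Fin d) ℂ, (∀ i, (Φᴴ * Φ) i i = 1) →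
        (∀ i j, i ≠ j → ‖(Φᴴ * Φ) i j‖ ≤ μ) → LasCert m 2 Φ) ∧
    (∀ m ℓ n d : ℕ, 1 ≤ n → 1 ≤ ℓ → 16 * n * m ≤ d →
      (2 ^ 11 * ℓ * n) ^ (4 * ℓ) ≤ m ^ (4 * ℓ + 1) →
        ∀ Φ : Matrix (Fin n) (Fin d) ℂ, ¬ LasCert m ℓ Φ) := by
  refine ⟨?_, ?_, ?_, ?_, ?_⟩
  · rintro m ℓ n d Φ ⟨c, hc, hZ⟩
    exact ⟨c, hc, fun S hS x hx => t_LMR t_LMV ℂ (Fin d) (Fin n) m ℓ Φ c hc hZ S hS.le x hx⟩
  · intro m ℓ n d Φ h
    exact cert h
  · intro m n d Φ hmd hR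
    have h := t_XE t_XS t_XZ t_XV ℂ (Fin d) (Fin n) m Φ (by rwa [Fintype.card_fin]) hR
    rw [Fintype.card_fin] at h
    exact cert h
  · intro m n d μ hm hμ h5 Φ h1 h2
    exact cert (t_CA ℂ n d m μ hm hμ h5 Φ h1 h2)
  · intro m ℓ n d hn hℓ hd hm Φ
    exact lmb ℂ n d m ℓ hn hℓ hd (by norm_num at hm ⊢; exact hm) Φ

end Pool.Agent.Results.MP_c21969_lc.LasserreBarrier
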