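import Pool.Agent.SAT.Main

/-!
# MP_c21969_lc: the levels of semidefinite Sherali-Adams tests for the restricted isometry property

For every sparsity `m` and level `ℓ` there are two tests for matrices: `Cert m ℓ`
(`Pool/Agent/SAR/Defs.lean`), a semidefinite program with `(2 d) ^ O(ℓ)` variables and constraints
(the level-`ℓ` lift of the maximisation and of the minimisation of `‖Φ x‖²` over the `m`-sparse unit
vectors `x`), and the stronger test `WCert m ℓ` (`Pool/Agent/SAT/Defs.lean`), in which the lifts have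
more constraints.  Both are sound.  `WCert m (m + 2)` is exact: it accepts all matrices with the
`m`-RIP.  Main result: no matrix whatsoever with `n` rows is accepted by `WCert m ℓ`, hence by
`Cert m ℓ`, if `2 ^ 22 ℓ n² (1 + log ℓ)² < m³` (and `2 ^ 35 n⁴ (1 + log ℓ)² ≤ d m²`, `m ≤ d`).  With
`n = m (log d) ^ C` rows this excludes all levels `ℓ ≤ m / (2 ^ 24 (log d) ^ (2 C + 2))`.
-/

set_option autoImplicit false

namespace Pool.Agent.Results.MP_c21969_lc.SharpLevels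

open Matrix Finset Pool.SAR Pool.SAT
open scoped ComplexOrder

/-- For every sparsity `m`: the tests `Cert m ℓ` and `WCert m ℓ` are sound, `WCert m (m + 2)` and
`Cert m d` are exact, `Cert m 2` accepts small coherence, and no `n × d` matrix is accepted by
`WCert m ℓ` if `m ≤ d`, `2 ^ 22 ℓ n² (1 + log ℓ)² < m³` and `2 ^ 35 n⁴ (1 + log ℓ)² ≤ d m²`. -/
theorem result :
    (∀ (m ℓ n d : ℕ) (Φ : Matrix (Fin n) (Fin d) ℂ), Cert m ℓ Φ → WCert m ℓ Φ) ∧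
    (∀ (m ℓ n d : ℕ) (Φ : Matrix (Fin n) (Fin d) ℂ), WCert m ℓ Φ → RIP m Φ) ∧
    (∀ (m n d : ℕ) (Φ : Matrix (Fin n) (Fin d) ℂ), m ≤ d → RIP m Φ →
      WCert m (m + 2) Φ ∧ Cert m d Φ) ∧
    (∀ (m n d : ℕ) (μ : ℝ), 1 ≤ m → 0 ≤ μ → 5 * (((m : ℝ) - 1) * μ) ≤ 3 →
      ∀ Φ : Matrix (Fin n) (Fin d) ℂ, (∀ i, (Φᴴ * Φ) i i = 1) →
        (∀ i j, i ≠ j → ‖(Φᴴ * Φ) i j‖ ≤ μ) → Cert m 2 Φ) ∧
    (∀ m ℓ n d : ℕ, 1 ≤ n → 1 ≤ ℓ → m ≤ d →
      2 ^ 22 * (ℓ : ℝ) * (n : ℝ) ^ 2 * (1 + Real.log ℓ) ^ 2 < (m : ℝ) ^ 3 →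
      2 ^ 35 * (n : ℝ) ^ 4 * (1 + Real.log ℓ) ^ 2 ≤ (d : ℝ) * (m : ℝ) ^ 2 →
      ∀ Φ : Matrix (Fin n) (Fin d) ℂ, ¬ WCert m ℓ Φ) :=
  Pool.SAT.Final.main

end Pool.Agent.Results.MP_c21969_lc.SharpLevels
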